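import Pool.Agent.R422.UI.Dfs

/-!
# MP_52097a, piece B1: a linear path above `1/n`
-/

set_option autoImplicit false

namespace Pool.Agent.R422.UI

open Finset Pool.Agent.R980 R978UI
open scoped Classical

variable {n : ℕ}

/-- pairs meeting `W` -/
noncomputable def MM (W : Finset (Fin n)) : Finset (Edge n) :=
  univ.filter fun e => ∃ v ∈ e.1, v ∈ W

/-- pairs containing `w` and not meeting `W` -/
noncomputable def DD (W : Finset (Fin n)) (w : Fin n) : Finset (Edge n) :=
  univ.filter fun e => w ∈ e.1 ∧ ∀ v ∈ e.1, v ∉ W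

/-- the number of present pairs in `F` -/
noncomputable def pc (F : Finset (Edge n)) (x : Edge n → Bool) : ℕ :=
  (F.filter fun e => x e = true).card

lemma eInc_eq (x : Edge n → Bool) (W : Finset (Fin n)) : eInc (ofBool x) W = pc (MM W) x := by
  unfold eInc pc MM
  rw [Finset.filter_filter]
  congr 1
  refine Finset.filter_congr fun e _ => ?_
  rw [mem_ofBool, and_comm]

lemma disj (W : Finset (Fin n)) (w : Fin n) : Disjoint (MM W) (DD W w) := by
  rw [Finset.disjoint_left]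
  intro e h1 h2
  rw [MM, Finset.mem_filter] at h1
  rw [DD, Finset.mem_filter] at h2
  obtain ⟨-, v, hv1, hv2⟩ := h1
  exact h2.2.2 v hv1 hv2

lemma MM_insert (W : Finset (Fin n)) (w : Fin n) : MM (insert w W) = MM W ∪ DD W w := by
  ext e
  rw [Finset.mem_union, MM, MM, DD, Finset.mem_filter, Finset.mem_filter, Finset.mem_filter]
  constructor
  · rintro ⟨-, v, hv1, hv2⟩
    by_cases h : ∃ v ∈ e.1, v ∈ W
    · exact Or.inl ⟨Finset.mem_univ _, h⟩
    · push Not at h
      rcases Finset.mem_insert.1 hv2 with rfl | hv2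
      · exact Or.inr ⟨Finset.mem_univ _, hv1, h⟩
      · exact absurd hv2 (h v hv1)
  · rintro (⟨-, v, hv1, hv2⟩ | ⟨-, h1, h2⟩)
    · exact ⟨Finset.mem_univ _, v, hv1, Finset.mem_insert_of_mem hv2⟩
    · exact ⟨Finset.mem_univ _, w, h1, Finset.mem_insert_self _ _⟩

lemma pc_insert (W : Finset (Fin n)) (w : Fin n) (x : Edge n → Bool) :
    pc (MM (insert w W)) x = pc (MM W) x + pc (DD W w) x := by
  unfold pc
  rw [MM_insert, Finset.filter_union, Finset.card_union_of_disjoint]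
  exact Finset.disjoint_filter_filter (disj W w)

lemma card_DD {W : Finset (Fin n)} {w : Fin n} (hw : w ∉ W) : (DD W w).card = n - 1 - W.card := by
  have h1 : ((insert w W)ᶜ : Finset (Fin n)).card = n - 1 - W.card := by
    rw [Finset.card_compl, Fintype.card_fin, Finset.card_insert_of_notMem hw]
    omega
  rw [← h1]
  symm
  have hd : ∀ y ∈ ((insert w W)ᶜ : Finset (Fin n)), ¬ (s(w, y) : Sym2 (Fin n)).IsDiag := by
    intro y hy h
    rw [Sym2.mk_isDiag_iff] at h
    rw [Finset.mem_compl, Finset.mem_insert, not_or] at hy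
    exact hy.1 h.symm
  refine Finset.card_bij (fun y hy => ⟨s(w, y), hd y hy⟩) ?_ ?_ ?_
  · intro y hy
    rw [DD, Finset.mem_filter]
    rw [Finset.mem_compl, Finset.mem_insert, not_or] at hy
    refine ⟨Finset.mem_univ _, Sym2.mem_mk_left w y, fun v hv => ?_⟩
    rcases Sym2.mem_iff.1 hv with rfl | rfl
    · exact hw
    · exact hy.2
  · intro y hy z hz h
    have h2 : (s(w, y) : Sym2 (Fin n)) = s(w, z) := congrArg Subtype.val h
    exact Sym2.congr_right.1 h2
  · rintro ⟨e, he⟩ hmem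
    rw [DD, Finset.mem_filter] at hmem
    obtain ⟨-, h2, h3⟩ := hmem
    dsimp only at h2 h3
    obtain ⟨y, rfl⟩ := Sym2.mem_iff_exists.1 h2
    refine ⟨y, ?_, rfl⟩
    rw [Finset.mem_compl, Finset.mem_insert, not_or]
    refine ⟨?_, h3 y (Sym2.mem_mk_right w y)⟩
    rintro rfl
    exact he (by simp)

lemma bex_sum {ι : Type} [Fintype ι] (p : ℝ) (f : ι → (Edge n → Bool) → ℝ) :
    bex p (fun x => ∑ i, f i x) = ∑ i, bex p (f i) := by
  unfold bex
  rw [Finset.sum_comm]
  exact Finset.sum_congr rfl fun x _ => by rw [Finset.mul_sum]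

lemma bex_pow (p θ : ℝ) (F : Finset (Edge n)) :
    bex p (fun x => θ ^ pc F x) = (1 - (1 - θ) * p) ^ F.card := by
  have h1 : (fun x : Edge n → Bool => θ ^ pc F x)
      = fun x => ∏ e : Edge n, (fun (e : Edge n) (b : Bool) =>
          if e ∈ F ∧ b = true then θ else 1) e (x e) := by
    funext x
    simp only
    rw [Finset.prod_ite, prod_const, prod_const_one, mul_one, pc]
    congr 2
    ext e
    simp
  rw [h1, bex_prod p (fun (e : Edge n) (b : Bool) => if e ∈ F ∧ b = true then θ else 1)]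
  simp only [and_true, Bool.false_eq_true, and_false, if_false, mul_one]
  have h2 : ∀ e : Edge n, (p * (if e ∈ F then θ else 1) + (1 - p))
      = if e ∈ F then 1 - (1 - θ) * p else 1 := by
    intro e; split_ifs <;> ring
  rw [prod_congr rfl fun e _ => h2 e, Finset.prod_ite, prod_const, prod_const_one, mul_one]
  congr 2
  ext e
  simp

lemma agree_of {W : Finset (Fin n)} {x y : Edge n → Bool} (h : ∀ e ∈ MM W, x e = y e) :
    Agree (ofBool x) (ofBool y) W := by
  intro v w hv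
  constructor
  · rintro ⟨h1, h2⟩
    refine ⟨h1, ?_⟩
    rw [← h ⟨s(v, w), h1⟩ (by
      rw [MM, Finset.mem_filter]
      exact ⟨Finset.mem_univ _, v, Sym2.mem_mk_left v w, hv⟩)]
    exact h2
  · rintro ⟨h1, h2⟩
    refine ⟨h1, ?_⟩
    rw [h ⟨s(v, w), h1⟩ (by
      rw [MM, Finset.mem_filter]
      exact ⟨Finset.mem_univ _, v, Sym2.mem_mk_left v w, hv⟩)]
    exact h2

/-- the moment generating function -/
noncomputable def mg (n : ℕ) [NeZero n] (p θ : ℝ) (t : ℕ) : ℝ :=
  bex p (fun x : Edge n → Bool => θ ^ pc (MM (vis (ofBool x) t)) x)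

lemma mg_succ [NeZero n] (hI : StmtIndep) (p θ : ℝ) {t : ℕ} (ht : t < n) :
    mg n p θ (t + 1) = mg n p θ t * (1 - (1 - θ) * p) ^ (n - 1 - t) := by
  obtain ⟨f, hf⟩ : ∃ f : Finset (Fin n) × Fin n → (Edge n → Bool) → ℝ, f = fun i x =>
      if vis (ofBool x) t = i.1 ∧ new (ofBool x) t = i.2 then θ ^ pc (MM i.1) x else 0 := ⟨_, rfl⟩
  have h1 : mg n p θ t = ∑ i, bex p (f i) := by
    rw [← bex_sum, mg]
    congr 1
    funext x
    rw [Finset.sum_eq_single (vis (ofBool x) t, new (ofBool x) t)]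
    · rw [hf]
      simp
    · intro i _ hi
      rw [hf]
      refine if_neg fun h => hi ?_
      exact Prod.ext h.1.symm h.2.symm
    · intro h
      exact absurd (Finset.mem_univ _) h
  have h2 : mg n p θ (t + 1) = ∑ i : Finset (Fin n) × Fin n,
      bex p (fun x => f i x * θ ^ pc (DD i.1 i.2) x) := by
    rw [← bex_sum, mg]
    congr 1
    funext x
    rw [Finset.sum_eq_single (vis (ofBool x) t, new (ofBool x) t)]
    · rw [hf]
      simp only [and_self, if_true]
      rw [vis_succ, pc_insert, pow_add]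
    · intro i _ hi
      rw [hf]
      have : ¬ (vis (ofBool x) t = i.1 ∧ new (ofBool x) t = i.2) :=
        fun h => hi (Prod.ext h.1.symm h.2.symm)
      simp only [if_neg this, zero_mul]
    · intro h
      exact absurd (Finset.mem_univ _) h
  rw [h1, h2, Finset.sum_mul]
  refine Finset.sum_congr rfl fun i _ => ?_
  have h3 := hI (Edge n) inferInstance inferInstance p (MM i.1) (f i)
    (fun x => θ ^ pc (DD i.1 i.2) x) ?_ ?_
  · rw [bex_pow] at h3
    have h4 : bex p (fun x => f i x * θ ^ pc (DD i.1 i.2) x) =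
        bex p (f i) * (1 - (1 - θ) * p) ^ (DD i.1 i.2).card := by
      convert h3 using 1
    rw [h4]
    by_cases hz : ∀ x, f i x = 0
    · have : bex p (f i) = 0 := by
        unfold bex
        exact Finset.sum_eq_zero fun x _ => by rw [hz x, mul_zero]
      rw [this, zero_mul, zero_mul]
    · push Not at hz
      obtain ⟨x, hx⟩ := hz
      rw [hf] at hx
      have h5 : vis (ofBool x) t = i.1 ∧ new (ofBool x) t = i.2 := by
        by_contra hcon
        exact hx (if_neg hcon)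
      have h6 := new_notMem (ofBool x) ht
      have h7 := vis_card (ofBool x) ht.le
      rw [h5.1] at h6 h7
      rw [h5.2] at h6
      rw [card_DD h6, h7]
  · intro x y hxy
    have ha := congr_iff (agree_of hxy) t i.2
    have hb : pc (MM i.1) x = pc (MM i.1) y := by
      unfold pc
      congr 1
      refine Finset.filter_congr fun e he => ?_
      rw [hxy e he]
    rw [hf]
    simp only
    rw [hb]
    by_cases hc : vis (ofBool x) t = i.1 ∧ new (ofBool x) t = i.2
    · rw [if_pos hc, if_pos (ha.1 hc)]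
    · rw [if_neg hc, if_neg fun h => hc (ha.2 h)]
  · intro x y hxy
    have hb : pc (DD i.1 i.2) x = pc (DD i.1 i.2) y := by
      unfold pc
      congr 1
      refine Finset.filter_congr fun e he => ?_
      rw [hxy e (Finset.disjoint_right.1 (disj i.1 i.2) he)]
    simp only [hb]

lemma mg_le [NeZero n] (hI : StmtIndep) {p θ : ℝ} (h0 : 0 ≤ p) (h1 : p ≤ 1) (ht0 : 0 < θ)
    (ht1 : θ ≤ 1) : ∀ t : ℕ, t ≤ n →
    mg n p θ t ≤ Real.exp (-((1 - θ) * p * (t * (n - 1) - t * (t - 1) / 2)))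
  | 0, _ => by
    have : mg n p θ 0 = 1 := by
      rw [mg]
      have h2 : (fun x : Edge n → Bool => θ ^ pc (MM (vis (ofBool x) 0)) x) = fun _ => 1 := by
        funext x
        have h3 : vis (ofBool x) 0 = ∅ := rfl
        have h4 : pc (MM (∅ : Finset (Fin n))) x = 0 := by
          rw [pc, Finset.card_eq_zero]
          ext e
          simp [MM]
        rw [h3, h4, pow_zero]
      rw [h2, bex_const]
    rw [this]
    simp
  | t + 1, ht => by
    have ih := mg_le hI h0 h1 ht0 ht1 t (by omega)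
    rw [mg_succ hI p θ (by omega)]
    have hnn : 0 ≤ 1 - (1 - θ) * p := by nlinarith
    have h2 : (1 - (1 - θ) * p) ^ (n - 1 - t) ≤ Real.exp (-((1 - θ) * p)) ^ (n - 1 - t) := by
      refine pow_le_pow_left₀ hnn ?_ _
      have := Real.add_one_le_exp (-((1 - θ) * p))
      linarith
    refine (mul_le_mul ih h2 (by positivity) (Real.exp_pos _).le).trans_eq ?_
    rw [← Real.exp_nat_mul, ← Real.exp_add]
    congr 1
    have h3 : ((n - 1 - t : ℕ) : ℝ) = (n : ℝ) - 1 - t := by
      rw [Nat.cast_sub (by omega), Nat.cast_sub (by omega)]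
      push_cast
      ring
    rw [h3]
    push_cast
    ring

lemma tail [NeZero n] (hI : StmtIndep) {p τ : ℝ} (h0 : 0 ≤ p) (h1 : p ≤ 1) (hτ0 : 0 < τ)
    (hτ1 : τ < 1) {t : ℕ} (ht : t ≤ n) :
    gnp n p (fun G => (eInc G (vis G t) : ℝ) ≤ (1 - τ) * (p * (t * (n - t)))) ≤
      Real.exp (-((τ + (1 - τ) * Real.log (1 - τ)) * (p * (t * (n - t))))) := by
  obtain ⟨y, hy⟩ : ∃ y : ℝ, y = (1 - τ) * (p * (t * (n - t))) := ⟨_, rfl⟩
  have hθ : 0 < 1 - τ := by linarith
  have h2 := gnp_markov h0 h1 (fun G : SimpleGraph (Fin n) => (eInc G (vis G t) : ℝ) ≤ y)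
    (fun x : Edge n → Bool => (1 - τ) ^ pc (MM (vis (ofBool x) t)) x)
    (fun x => (pow_pos hθ _).le) ((1 - τ) ^ y) (Real.rpow_pos_of_pos hθ _) (by
      intro x hx
      rw [eInc_eq] at hx
      rw [← Real.rpow_natCast]
      exact Real.rpow_le_rpow_of_exponent_ge hθ (by linarith) hx)
  have h3 : bex p (fun x : Edge n → Bool => (1 - τ) ^ pc (MM (vis (ofBool x) t)) x) ≤
      Real.exp (-((1 - (1 - τ)) * p * (t * (n - 1) - t * (t - 1) / 2))) :=
    mg_le hI h0 h1 hθ (by linarith) t ht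
  rw [← hy]
  refine h2.trans ?_
  rw [div_le_iff₀ (Real.rpow_pos_of_pos hθ _), Real.rpow_def_of_pos hθ, ← Real.exp_add]
  refine h3.trans (Real.exp_le_exp.2 ?_)
  rw [hy]
  have h4 : (t : ℝ) ≤ (t : ℝ) ^ 2 := by
    rcases Nat.eq_zero_or_pos t with rfl | h5
    · simp
    · have : (1 : ℝ) ≤ t := by exact_mod_cast h5
      nlinarith
  have h5 : (t : ℝ) * (n - t) ≤ t * (n - 1) - t * (t - 1) / 2 := by nlinarith
  have h6 : τ * p * ((t : ℝ) * (n - t)) ≤ τ * p * (t * (n - 1) - t * (t - 1) / 2) :=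
    mul_le_mul_of_nonneg_left h5 (by positivity)
  have h7 : (1 - (1 - τ)) = τ := by ring
  rw [h7]
  nlinarith [h6]

theorem stmtB1 (hB0 : StmtB0) (hB00 : StmtB00) (hI : StmtIndep) : StmtB1 := by
  intro δ K hδ hK
  obtain ⟨δ₁, hδ₁⟩ : ∃ δ₁, δ₁ = min δ 1 := ⟨_, rfl⟩
  have hd0 : 0 < δ₁ := by rw [hδ₁]; exact lt_min hδ one_pos
  have hd1 : δ₁ ≤ 1 := by rw [hδ₁]; exact min_le_right _ _
  have hd2 : δ₁ ≤ δ := by rw [hδ₁]; exact min_le_left _ _
  obtain ⟨τ, hτ⟩ : ∃ τ, τ = δ₁ / 16 := ⟨_, rfl⟩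
  have hτ0 : 0 < τ := by rw [hτ]; positivity
  have hτ1 : τ ≤ 1 / 16 := by rw [hτ]; linarith
  have hK1 : 1 ≤ K := by linarith
  obtain ⟨γ₁, hγ₁, h1⟩ := hB0 K τ hK1 hτ0
  obtain ⟨β, hβ⟩ : ∃ β, β = min γ₁ τ := ⟨_, rfl⟩
  have hβ0 : 0 < β := by rw [hβ]; exact lt_min hγ₁ hτ0
  have hβ1 : β ≤ γ₁ := by rw [hβ]; exact min_le_left _ _
  have hβ2 : β ≤ τ := by rw [hβ]; exact min_le_right _ _
  obtain ⟨γ, hγ, h2⟩ := hB00 K (δ₁ * β / 8) hK1 (by positivity)
  refine ⟨γ, hγ, fun η hη => ?_⟩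
  obtain ⟨N₀, h3⟩ := h1 β hβ0 hβ1 (η / 3) (by positivity)
  obtain ⟨N₁, h4⟩ := h2 (η / 3) (by positivity)
  obtain ⟨c, hc⟩ : ∃ c, c = τ + (1 - τ) * Real.log (1 - τ) := ⟨_, rfl⟩
  have hc0 : 0 < c := by
    have ha : 0 < (1 - τ)⁻¹ := by
      have : 0 < 1 - τ := by linarith
      positivity
    have hb := Real.log_lt_sub_one_of_pos ha (by
      intro h
      rw [inv_eq_one] at h
      linarith)
    rw [Real.log_inv] at hb
    have hd : 0 < 1 - τ := by linarith
    have he : (1 - τ) * (-Real.log (1 - τ)) < (1 - τ) * ((1 - τ)⁻¹ - 1) :=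
      mul_lt_mul_of_pos_left hb hd
    rw [mul_sub, mul_inv_cancel₀ hd.ne'] at he
    rw [hc]
    linarith
  refine ⟨max (max N₀ N₁) (max (max ⌈2 / β⌉₊ ⌈K⌉₊) (max 1 ⌈4 / (c * β) * Real.log (3 / η)⌉₊)),
    fun n hn p hp1 hp2 => ?_⟩
  have hn0 : N₀ ≤ n := (le_max_left _ _).trans ((le_max_left _ _).trans hn)
  have hn1 : N₁ ≤ n := (le_max_right _ _).trans ((le_max_left _ _).trans hn)
  have hn2 : 2 / β ≤ n := (Nat.le_ceil _).trans (by
    exact_mod_cast (le_max_left _ _).trans ((le_max_left _ _).trans ((le_max_right _ _).trans hn)))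
  have hn3 : K ≤ n := (Nat.le_ceil _).trans (by
    exact_mod_cast (le_max_right _ _).trans ((le_max_left _ _).trans ((le_max_right _ _).trans hn)))
  have hn4 : 1 ≤ n := (le_max_left _ _).trans ((le_max_right _ _).trans ((le_max_right _ _).trans hn))
  have hn5 : 4 / (c * β) * Real.log (3 / η) ≤ n := (Nat.le_ceil _).trans (by
    exact_mod_cast (le_max_right _ _).trans ((le_max_right _ _).trans ((le_max_right _ _).trans hn)))
  have : NeZero n := ⟨by omega⟩
  have hnR : (1 : ℝ) ≤ n := by exact_mod_cast hn4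
  have hn' : (0 : ℝ) < n := by linarith
  have hp0 : 0 ≤ p := le_trans (by positivity) hp1
  have hp3 : p ≤ 1 := hp2.trans (by rw [div_le_one hn']; exact hn3)
  obtain ⟨t, ht⟩ : ∃ t, t = ⌊β * n⌋₊ := ⟨_, rfl⟩
  have ht1 : (t : ℝ) ≤ β * n := by rw [ht]; exact Nat.floor_le (by positivity)
  have hβn : 2 ≤ β * n := by
    rw [div_le_iff₀ hβ0] at hn2
    linarith
  have ht2 : β * n / 2 ≤ t := by
    have := Nat.lt_floor_add_one (β * n)
    rw [← ht] at this
    linarith
  have ht3 : (t : ℝ) ≤ n / 2 := by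
    refine ht1.trans ?_
    have : β * n ≤ 1 / 16 * n := mul_le_mul_of_nonneg_right (by linarith) hn'.le
    linarith
  have ht4 : t ≤ n := by
    have : (t : ℝ) ≤ n := by linarith
    exact_mod_cast this
  have ht0 : 0 < (t : ℝ) := by linarith
  -- the three bad events
  have e1 := h3 n hn0 p hp0 hp2
  have e2 := h4 n hn1 p hp0 hp2
  have e3 := tail (n := n) hI hp0 hp3 hτ0 (by linarith) ht4
  rw [← hc] at e3
  have e4 : Real.exp (-(c * (p * (t * (n - t))))) ≤ η / 3 := by
    have ha : β * n / 4 ≤ p * (t * (n - t)) := by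
      have hb : (1 : ℝ) / n ≤ p := le_trans (div_le_div_of_nonneg_right (by linarith) hn'.le) hp1
      have hd : β * n / 2 * (n / 2) ≤ t * ((n : ℝ) - t) :=
        mul_le_mul ht2 (by linarith) (by linarith) ht0.le
      have he : (1 : ℝ) / n * (β * n / 2 * (n / 2)) ≤ p * (t * ((n : ℝ) - t)) :=
        mul_le_mul hb hd (by positivity) hp0
      have hf : (1 : ℝ) / n * (β * n / 2 * (n / 2)) = β * n / 4 := by
        field_simp
        ring
      linarith
    have hb : Real.log (3 / η) ≤ c * (p * (t * (n - t))) := by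
      have hd : Real.log (3 / η) ≤ c * (β * n / 4) := by
        have he : 4 / (c * β) * Real.log (3 / η) * (c * β / 4) ≤ n * (c * β / 4) :=
          mul_le_mul_of_nonneg_right hn5 (by positivity)
        have hf : 4 / (c * β) * Real.log (3 / η) * (c * β / 4) = Real.log (3 / η) := by
          field_simp
        rw [hf] at he
        linarith
      exact hd.trans (mul_le_mul_of_nonneg_left ha hc0.le)
    calc Real.exp (-(c * (p * (t * (n - t))))) ≤ Real.exp (-Real.log (3 / η)) :=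
          Real.exp_le_exp.2 (by linarith)
      _ = η / 3 := by
          rw [Real.exp_neg, Real.exp_log (by positivity), inv_div]
  have hincl : ∀ G : SimpleGraph (Fin n), (¬ ∃ (s : ℕ) (u : Fin s → Fin n), γ * n ≤ s ∧ IsPath G u) →
      ((∃ S : Finset (Fin n), β * n / 2 ≤ (S.card : ℝ) ∧ (S.card : ℝ) ≤ 2 * β * n ∧
        (1 + τ) * (S.card : ℝ) < (eIn G S : ℝ)) ∨
      ((∃ S : Finset (Fin n), (S.card : ℝ) ≤ γ * n ∧ δ₁ * β / 8 * n < (eInc G S : ℝ)) ∨
      (eInc G (vis G t) : ℝ) ≤ (1 - τ) * (p * (t * (n - t))))) := by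
    intro G hG
    by_contra hcon
    rw [not_or, not_or] at hcon
    obtain ⟨c1, c2, c3⟩ := hcon
    push Not at c1 c2
    rw [not_le] at c3
    have hcard := vis_card G ht4
    have a1 := c1 (vis G t) (by rw [hcard]; exact ht2) (by rw [hcard]; nlinarith)
    rw [hcard] at a1
    have a2 : ((bd G (vis G t)).card : ℝ) ≤ γ * n := by
      by_contra hcon
      rw [not_le] at hcon
      obtain ⟨s, u, hs, hu⟩ := exists_path G ht4
      refine hG ⟨s, u, hcon.le.trans ?_, hu⟩
      exact_mod_cast hs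
    have a3 := c2 _ a2
    have a4 : (eInc G (vis G t) : ℝ) ≤ eIn G (vis G t) + eInc G (bd G (vis G t)) := by
      exact_mod_cast eInc_le G (vis G t)
    have a5 : (1 + δ₁) * (1 - τ) ≤ p * (n - t) := by
      have hb : (1 + δ₁) / n ≤ p :=
        le_trans (div_le_div_of_nonneg_right (by linarith) hn'.le) hp1
      have hd : (1 - τ) * n ≤ n - t := by nlinarith
      have he : (1 + δ₁) / n * ((1 - τ) * n) ≤ p * (n - t) :=
        mul_le_mul hb hd (by nlinarith) hp0
      have hf : (1 + δ₁) / n * ((1 - τ) * n) = (1 + δ₁) * (1 - τ) := by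
        field_simp
      linarith
    have a6 : (1 - τ) * ((1 + δ₁) * (1 - τ)) ≤ (1 - τ) * (p * (n - t)) :=
      mul_le_mul_of_nonneg_left a5 (by linarith)
    have a7 : 1 + τ + δ₁ / 2 ≤ (1 - τ) * ((1 + δ₁) * (1 - τ)) := by
      have : δ₁ = 16 * τ := by rw [hτ]; ring
      rw [this]
      nlinarith [mul_nonneg hτ0.le hτ0.le, mul_nonneg (mul_nonneg hτ0.le hτ0.le) hτ0.le]
    have a8 : (1 + τ + δ₁ / 2) * t ≤ (1 - τ) * (p * (n - t)) * t :=
      mul_le_mul_of_nonneg_right (a7.trans a6) ht0.le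
    have a9 : (1 - τ) * (p * (n - t)) * t = (1 - τ) * (p * (t * (n - t))) := by ring
    rw [a9] at a8
    have a10 : δ₁ / 2 * t < δ₁ * β / 8 * n := by linarith
    have a11 : δ₁ / 2 * (β * n / 2) ≤ δ₁ / 2 * t := mul_le_mul_of_nonneg_left ht2 (by positivity)
    have a12 : 0 < δ₁ * (β * n) := by positivity
    linarith
  refine (gnp_mono hp0 hp3 hincl).trans ?_
  refine (gnp_or_le hp0 hp3 _ _).trans ?_
  have e5 := gnp_or_le hp0 hp3 (fun G : SimpleGraph (Fin n) => ∃ S : Finset (Fin n),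
    (S.card : ℝ) ≤ γ * n ∧ δ₁ * β / 8 * n < (eInc G S : ℝ))
    (fun G => (eInc G (vis G t) : ℝ) ≤ (1 - τ) * (p * (t * (n - t))))
  linarith

end Pool.Agent.R422.UI
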