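import Pool.Agent.R978.UI.Stm

/-!
# MP_52097a, piece B1: depth first search, vertex by vertex (deterministic part)
-/

set_option autoImplicit false

namespace Pool.Agent.R422.UI

open Finset Pool.Agent.R980 R978UI
open scoped Classical

variable {n : ℕ}

/-- the neighbours outside `W` of a vertex `v` of `W` -/
noncomputable def nbf (G : SimpleGraph (Fin n)) (W : Finset (Fin n)) (v : Fin n) :
    Finset (Fin n) :=
  univ.filter fun w => v ∈ W ∧ w ∉ W ∧ G.Adj v w

/-- choose an element -/
noncomputable def pick [NeZero n] (S : Finset (Fin n)) : Fin n :=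
  if h : S.Nonempty then h.choose else 0

lemma pick_mem [NeZero n] {S : Finset (Fin n)} (h : S.Nonempty) : pick S ∈ S := by
  unfold pick
  rw [dif_pos h]
  exact h.choose_spec

/-- the reduced stack -/
noncomputable def red (N : Fin n → Finset (Fin n)) (st : List (Fin n)) : List (Fin n) :=
  st.dropWhile fun v => decide (N v = ∅)

/-- the new vertex -/
noncomputable def nw [NeZero n] (N : Fin n → Finset (Fin n)) (st : List (Fin n))
    (W : Finset (Fin n)) : Fin n :=
  match red N st with
  | [] => pick Wᶜ
  | u :: _ => pick (N u)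

/-- the state (stack, visited set) after `t` steps -/
noncomputable def run [NeZero n] (G : SimpleGraph (Fin n)) : ℕ → List (Fin n) × Finset (Fin n)
  | 0 => ([], ∅)
  | t + 1 =>
    (nw (nbf G (run G t).2) (run G t).1 (run G t).2 :: red (nbf G (run G t).2) (run G t).1,
      insert (nw (nbf G (run G t).2) (run G t).1 (run G t).2) (run G t).2)

/-- the visited set -/
noncomputable def vis [NeZero n] (G : SimpleGraph (Fin n)) (t : ℕ) : Finset (Fin n) := (run G t).2

/-- the vertex visited in step `t` -/
noncomputable def new [NeZero n] (G : SimpleGraph (Fin n)) (t : ℕ) : Fin n :=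
  nw (nbf G (run G t).2) (run G t).1 (run G t).2

lemma vis_succ [NeZero n] (G : SimpleGraph (Fin n)) (t : ℕ) :
    vis G (t + 1) = insert (new G t) (vis G t) := rfl

/-- the invariants -/
structure Inv (G : SimpleGraph (Fin n)) (s : List (Fin n) × Finset (Fin n)) (t : ℕ) : Prop where
  card : s.2.card = t
  nodup : s.1.Nodup
  sub : ∀ v ∈ s.1, v ∈ s.2
  chain : s.1.IsChain G.Adj
  done : ∀ v ∈ s.2, v ∉ s.1 → ∀ y, y ∉ s.2 → ¬ G.Adj v y

lemma red_suffix (N : Fin n → Finset (Fin n)) (st : List (Fin n)) : red N st <:+ st :=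
  List.dropWhile_suffix _

lemma inv_step [NeZero n] (G : SimpleGraph (Fin n)) {t : ℕ} (ht : t < n)
    (h : Inv G (run G t) t) : new G t ∉ vis G t ∧ Inv G (run G (t + 1)) (t + 1) := by
  rcases hs : run G t with ⟨st, W⟩
  rw [hs] at h
  obtain ⟨h1, h2, h3, h4, h5⟩ := h
  dsimp only at h1 h2 h3 h4 h5
  have hW : vis G t = W := by rw [vis, hs]
  have hN : new G t = nw (nbf G W) st W := by rw [new, hs]
  have hR : run G (t + 1) = (nw (nbf G W) st W :: red (nbf G W) st,
      insert (nw (nbf G W) st W) W) := by rw [run, hs]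
  have hsuf := red_suffix (nbf G W) st
  have hne : (Wᶜ : Finset (Fin n)).Nonempty := by
    rw [← Finset.card_pos, Finset.card_compl, Fintype.card_fin]
    omega
  obtain ⟨w, hw⟩ : ∃ w, w = nw (nbf G W) st W := ⟨_, rfl⟩
  -- the new vertex is not visited, and adjacent to the top of the reduced stack
  have key : w ∉ W ∧ ∀ u rest, red (nbf G W) st = u :: rest → G.Adj u w := by
    rw [hw, nw]
    rcases hr : red (nbf G W) st with _ | ⟨u, rest⟩
    · refine ⟨Finset.mem_compl.1 (pick_mem hne), fun u rest h => ?_⟩
      exact absurd h (by simp)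
    · have h6 : (nbf G W u).Nonempty := by
        rw [Finset.nonempty_iff_ne_empty]
        intro h7
        have h8 : st.dropWhile (fun v => decide (nbf G W v = ∅)) ≠ [] := by
          rw [red] at hr
          rw [hr]; simp
        have h9 := List.head_dropWhile_not (p := fun v => decide (nbf G W v = ∅)) h8
        have h10 : (st.dropWhile (fun v => decide (nbf G W v = ∅))).head h8 = u := by
          have : ∀ (l : List (Fin n)) (hl : l ≠ []), l = u :: rest → l.head hl = u := by
            rintro l hl rfl
            rfl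
          exact this _ h8 hr
        rw [h10] at h9
        simp [h7] at h9
      have h7 := pick_mem h6
      simp only
      have h8 := (Finset.mem_filter.1 h7).2
      refine ⟨h8.2.1, fun u' rest' h => ?_⟩
      have : u = u' := by
        injection h
      rw [← this]
      exact h8.2.2
  rw [hW, hN, ← hw]
  rw [hR, ← hw]
  refine ⟨key.1, ?_, ?_, ?_, ?_, ?_⟩
  · change (insert w W).card = t + 1
    rw [Finset.card_insert_of_notMem key.1, h1]
  · change (w :: red (nbf G W) st).Nodup
    rw [List.nodup_cons]
    refine ⟨fun h => key.1 (h3 _ (hsuf.subset h)), h2.sublist hsuf.sublist⟩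
  · intro v hv
    change v ∈ w :: red (nbf G W) st at hv
    change v ∈ insert w W
    rcases List.mem_cons.1 hv with rfl | hv
    · exact Finset.mem_insert_self _ _
    · exact Finset.mem_insert_of_mem (h3 _ (hsuf.subset hv))
  · change (w :: red (nbf G W) st).IsChain G.Adj
    rcases hr : red (nbf G W) st with _ | ⟨u, rest⟩
    · exact List.isChain_singleton _
    · rw [List.isChain_cons_cons]
      refine ⟨(key.2 u rest hr).symm, ?_⟩
      rw [← hr]
      exact h4.suffix hsuf
  · intro v hv hv2 y hy
    change v ∈ insert w W at hv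
    change v ∉ w :: red (nbf G W) st at hv2
    change y ∉ insert w W at hy
    rw [List.mem_cons, not_or] at hv2
    rcases Finset.mem_insert.1 hv with rfl | hv
    · exact absurd rfl hv2.1
    · have hy2 : y ∉ W := fun h => hy (Finset.mem_insert_of_mem h)
      by_cases hvs : v ∈ st
      · have h6 : v ∈ st.takeWhile (fun v => decide (nbf G W v = ∅)) := by
          have h7 := List.takeWhile_append_dropWhile (p := fun v => decide (nbf G W v = ∅)) (l := st)
          rw [← h7] at hvs
          rcases List.mem_append.1 hvs with h8 | h8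
          · exact h8
          · exact absurd h8 hv2.2
        have h7 := List.mem_takeWhile_imp h6
        simp only [decide_eq_true_eq] at h7
        intro hadj
        have h8 : y ∈ nbf G W v := by
          rw [nbf, Finset.mem_filter]
          exact ⟨Finset.mem_univ _, hv, hy2, hadj⟩
        rw [h7] at h8
        simp at h8
      · exact h5 v hv hvs y hy2

lemma inv [NeZero n] (G : SimpleGraph (Fin n)) : ∀ t, t ≤ n → Inv G (run G t) t
  | 0, _ => ⟨rfl, List.nodup_nil, by intro v hv; exact absurd hv (by simp [run]),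
      by simp [run], by intro v hv; exact absurd hv (by simp [run])⟩
  | t + 1, h => (inv_step G (Nat.lt_of_succ_le h) (inv G t (Nat.le_of_succ_le h))).2

lemma new_notMem [NeZero n] (G : SimpleGraph (Fin n)) {t : ℕ} (ht : t < n) : new G t ∉ vis G t :=
  (inv_step G ht (inv G t ht.le)).1

lemma vis_card [NeZero n] (G : SimpleGraph (Fin n)) {t : ℕ} (ht : t ≤ n) : (vis G t).card = t :=
  (inv G t ht).card

lemma vis_mono [NeZero n] (G : SimpleGraph (Fin n)) {s t : ℕ} (h : s ≤ t) : vis G s ⊆ vis G t := by
  induction t with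
  | zero =>
    obtain rfl : s = 0 := by omega
    exact subset_rfl
  | succ t ih =>
    rcases Nat.lt_or_ge t s with h1 | h1
    · obtain rfl : s = t + 1 := by omega
      exact subset_rfl
    · exact (ih h1).trans (by rw [vis_succ]; exact Finset.subset_insert _ _)

/-- two graphs agree on the pairs meeting `W` -/
def Agree (G H : SimpleGraph (Fin n)) (W : Finset (Fin n)) : Prop :=
  ∀ v w, v ∈ W → (G.Adj v w ↔ H.Adj v w)

lemma nbf_congr {G H : SimpleGraph (Fin n)} {W W' : Finset (Fin n)} (h : Agree G H W')
    (hW : W ⊆ W') : nbf G W = nbf H W := by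
  funext v
  unfold nbf
  refine Finset.filter_congr fun w _ => ?_
  constructor
  · rintro ⟨h1, h2, h3⟩
    exact ⟨h1, h2, (h v w (hW h1)).1 h3⟩
  · rintro ⟨h1, h2, h3⟩
    exact ⟨h1, h2, (h v w (hW h1)).2 h3⟩

lemma run_congr [NeZero n] {G H : SimpleGraph (Fin n)} {t : ℕ} (h : Agree G H (vis G t)) :
    ∀ s, s ≤ t + 1 → run H s = run G s
  | 0, _ => rfl
  | s + 1, hs => by
    have ih := run_congr h s (by omega)
    have h1 : nbf G (run G s).2 = nbf H (run G s).2 :=
      nbf_congr h (vis_mono G (show s ≤ t by omega))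
    rw [run, run, ih, h1]

lemma congr_iff [NeZero n] {G H : SimpleGraph (Fin n)} {W : Finset (Fin n)} (h : Agree G H W)
    (t : ℕ) (w : Fin n) : (vis G t = W ∧ new G t = w) ↔ (vis H t = W ∧ new H t = w) := by
  have aux : ∀ {G H : SimpleGraph (Fin n)}, Agree G H W → (vis G t = W ∧ new G t = w) →
      (vis H t = W ∧ new H t = w) := by
    rintro G H h ⟨h1, h2⟩
    have h3 : Agree G H (vis G t) := by rw [h1]; exact h
    have h4 := run_congr h3 t (by omega)
    have h5 : nbf G (run G t).2 = nbf H (run G t).2 := nbf_congr h3 subset_rfl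
    refine ⟨by rw [vis, h4]; exact h1, ?_⟩
    rw [new, h4, ← h5]
    exact h2
  exact ⟨aux h, aux fun v w hv => (h v w hv).symm⟩

/-- the vertices of `W` with a neighbour outside -/
noncomputable def bd (G : SimpleGraph (Fin n)) (W : Finset (Fin n)) : Finset (Fin n) :=
  W.filter fun v => ∃ y, y ∉ W ∧ G.Adj v y

lemma exists_path [NeZero n] (G : SimpleGraph (Fin n)) {t : ℕ} (ht : t ≤ n) :
    ∃ (s : ℕ) (u : Fin s → Fin n), (bd G (vis G t)).card ≤ s ∧ IsPath G u := by
  obtain ⟨h1, h2, h3, h4, h5⟩ := inv G t ht
  refine ⟨(run G t).1.length, (run G t).1.get, ?_, ?_, ?_⟩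
  · have h6 : bd G (vis G t) ⊆ (run G t).1.toFinset := by
      intro v hv
      rw [bd, Finset.mem_filter] at hv
      obtain ⟨hv1, y, hy, hadj⟩ := hv
      rw [List.mem_toFinset]
      by_contra hcon
      exact h5 v hv1 hcon y hy hadj
    exact (Finset.card_le_card h6).trans (List.toFinset_card_le _)
  · exact List.nodup_iff_injective_get.1 h2
  · intro i j hij
    have h6 := List.isChain_iff_getElem.1 h4 i (by rw [hij]; exact j.2)
    have h7 : (run G t).1.get j = (run G t).1[(i : ℕ) + 1]'(by rw [hij]; exact j.2) := by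
      simp only [List.get_eq_getElem, hij]
    rw [h7]
    exact h6

lemma eInc_le (G : SimpleGraph (Fin n)) (W : Finset (Fin n)) :
    eInc G W ≤ eIn G W + eInc G (bd G W) := by
  unfold eInc eIn
  refine le_trans (Finset.card_le_card ?_) (Finset.card_union_le _ _)
  rintro ⟨e, he⟩ hmem
  rw [Finset.mem_filter] at hmem
  obtain ⟨-, h1, v, hv1, hv2⟩ := hmem
  dsimp only at h1 hv1
  rw [Finset.mem_union, Finset.mem_filter, Finset.mem_filter]
  by_cases h2 : ∀ y ∈ e, y ∈ W
  · exact Or.inl ⟨Finset.mem_univ _, h1, h2⟩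
  · right
    push Not at h2
    obtain ⟨y, hy1, hy2⟩ := h2
    refine ⟨Finset.mem_univ _, h1, v, hv1, ?_⟩
    rw [bd, Finset.mem_filter]
    refine ⟨hv2, y, hy2, ?_⟩
    have hvy : v ≠ y := by rintro rfl; exact hy2 hv2
    have h3 : e = s(v, y) := ((Sym2.mem_and_mem_iff hvy).1 ⟨hv1, hy1⟩)
    rw [h3] at h1
    exact h1

end Pool.Agent.R422.UI
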